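import Pool.Agent.H2.TraceBr4

namespace Pool.Agent.Results.MP_9bafdc_mp.NotStarForm

open Pool.Agent.H2.TraceBr

/-- For every `k > 2`, every `N ≥ 2` and every `m ≥ 2` there is a homogeneous trace Poisson
bracket of degree `k` which is not of form (*). -/
theorem result (k N m : ℕ) (hk : 2 < k) (hN : 2 ≤ N) (hm : 2 ≤ m) :
    ∃ B : Pol N m → Pol N m → Pol N m, IsTraceBracket N m k B ∧ ¬ IsStar N m k B := by
  obtain ⟨n, rfl⟩ : ∃ n, k = n + 2 := ⟨k - 2, by omega⟩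
  obtain ⟨N', rfl⟩ : ∃ n, N = n + 2 := ⟨N - 2, by omega⟩
  obtain ⟨m', rfl⟩ : ∃ n, m = n + 2 := ⟨m - 2, by omega⟩
  exact ⟨_, isTraceBracket 0 n, not_star n (by omega)⟩

end Pool.Agent.Results.MP_9bafdc_mp.NotStarForm
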